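import Pool.Agent.V11299.FG.Supp

/-!
# Galois symmetry of the Fourier support of jointly ergodic measures

Let `μ` be a jointly ergodic probability measure for `×p, ×q` (`q = 1` is allowed: then `μ` is any
ergodic measure for `×p`) and `S` the set of the integers `m` with `μ^(m) ≠ 0`. The closure of `S` in
the product of the rings of `l`-adic integers, `l` prime to `p q`, is invariant under multiplication
by ALL units, not only by `p` and `q`: whether the coefficients vanish on the residue class
`r mod k`, for `k` prime to `p q`, depends only on `gcd (r, k)`.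

Proof. The average `ρ` of the translates of `μ` by the points `j / k` is invariant, and by ergodicity
`μ = c ρ |_A` for a Borel set `A`. The coefficients on `r mod k` are the coefficients of
`V_r (x) = ∑ 1_A (x + j / k) e (r j / k)`, times `e (r x)`, which is a function of `k x`; they vanish
if and only if `V_r (x) = 0` for almost every `x`, that is if the sum of the powers `ζ ^ (r j)`,
`x + j / k ∈ A`, of a root of unity is zero. This is invariant under Galois conjugation.
-/

set_option autoImplicit false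

open MeasureTheory Filter Topology Set

namespace Pool.Agent.Results.MP_e27144_an.FourierSupport

open Pool.Agent.V11299.FG Pool.Agent.Y139.GR

/-- **Galois symmetry of the Fourier support.** Let `p ≥ 2`, `q ≥ 1` and let `μ` be a probability
measure on the circle, invariant under `x ↦ p x` and `x ↦ q x` and jointly ergodic. (1) If
`μ^(n) ≠ 0`, `n ≠ 0`, then for all `k` prime to `p q` and all `r` with `gcd (r, k) = gcd (n, k)`
there are infinitely many `m ≡ r mod k` with `μ^(m) ≠ 0`. (2) For a prime `l` not dividing `p q` and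
`j ≥ 1`, a single class `r mod l ^ j` with `r` prime to `l` decides the invariance of `μ` under the
translation by `1 / l`: it holds if and only if `μ^` vanishes on this class. (3) If `μ` is not
Lebesgue measure, there is `n ≥ 1` such that for all `k` prime to `n p q` the support of `μ^` contains
infinitely many elements of every reduced residue class mod `k`; and for every prime `l` not
dividing `p q` there are arbitrarily large `i` such that the support meets all the classes
`l ^ i r mod l ^ j`, `r` prime to `l`, `j ≥ 0`, in infinitely many points. -/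
theorem result (p q : ℕ) (hp : 2 ≤ p) (hq : 1 ≤ q) (μ : Measure UnitAddCircle)
    [IsProbabilityMeasure μ] (hip : MeasurePreserving (fun x => p • x) μ μ)
    (hiq : MeasurePreserving (fun x => q • x) μ μ) (he : JointlyErgodic p q μ) :
    (∀ k : ℕ, 1 ≤ k → Nat.Coprime k (p * q) → ∀ n r : ℤ, n ≠ 0 →
      ∫ x, (fourier n x : ℂ) ∂μ ≠ 0 → Int.gcd r k = Int.gcd n k →
      {m : ℤ | m ≡ r [ZMOD k] ∧ ∫ x, (fourier m x : ℂ) ∂μ ≠ 0}.Infinite) ∧
    (∀ l : ℕ, l.Prime → ¬ l ∣ p * q → ∀ j : ℕ, 1 ≤ j → ∀ r : ℤ, ¬ (l : ℤ) ∣ r →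
      ((∀ m : ℤ, m ≡ r [ZMOD ((l ^ j : ℕ) : ℤ)] → ∫ x, (fourier m x : ℂ) ∂μ = 0) ↔
        μ.map (fun x => x + (((1 : ℝ) / l : ℝ) : UnitAddCircle)) = μ)) ∧
    (μ ≠ volume →
      (∃ n : ℕ, 1 ≤ n ∧ ∀ k : ℕ, 1 ≤ k → Nat.Coprime k (n * (p * q)) →
        ∀ r : ℤ, Int.gcd r k = 1 →
        {m : ℤ | m ≡ r [ZMOD k] ∧ ∫ x, (fourier m x : ℂ) ∂μ ≠ 0}.Infinite) ∧
      ∀ l : ℕ, l.Prime → ¬ l ∣ p * q → ∀ N : ℕ, ∃ i : ℕ, N ≤ i ∧
        ∀ (j : ℕ) (r : ℤ), ¬ (l : ℤ) ∣ r →
        {m : ℤ | m ≡ (l : ℤ) ^ i * r [ZMOD ((l ^ j : ℕ) : ℤ)] ∧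
          ∫ x, (fourier m x : ℂ) ∂μ ≠ 0}.Infinite) := by
  refine ⟨fun k hk hkpq n r hn0 hn hnr => supp_inf (by omega) hq hip hiq he hk hkpq hn0 hn hnr,
    fun l hl hlpq j hj r hr => translate_iff hip hiq he hl hlpq hj hr, fun hne => ⟨?_,
    fun l hl hlpq N => exists_level hp hq hip hiq he hne hl hlpq N⟩⟩
  obtain ⟨n, hn0, hn⟩ := exists_supp hne
  refine ⟨n.natAbs, Int.natAbs_pos.2 hn0, fun k hk hkn r hr => ?_⟩
  refine supp_inf (by omega) hq hip hiq he hk (Nat.Coprime.coprime_mul_left_right hkn) hn0 hn ?_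
  rw [hr]
  have h1 := Nat.Coprime.coprime_mul_right_right hkn
  show 1 = Nat.gcd n.natAbs (k : ℤ).natAbs
  rw [Int.natAbs_natCast]
  exact Eq.symm (Nat.coprime_comm.1 h1)

end Pool.Agent.Results.MP_e27144_an.FourierSupport
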