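import Mathlib
import Pool.Agent.V11299.OV.NearJ

/-!
# Couplings at a small scale with small relative error

Let `p, q ≥ 2` be multiplicatively independent and `μ, ν` probability measures on the circle
invariant under `x ↦ p x` and `x ↦ q x`. If parts of mass `c` of `μ` and `ν` can be coupled in such a
way that, at some small scale `t`, all differences `y - x` (or `b y - a x` with fixed integers) lie in
at most `J` intervals `[u, (1 + η) u]` with `t ≤ u ≤ K t`, then `μ` contains `c` times Lebesgue
measure, up to a given error in the weak topology. Here `η` and the bound for `t` depend on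
`p, q, a, b, J, K`, the test function and the error, but not on `μ`, `ν`, `c`, the coupling or the
scale. The measures are arbitrary (finite orbits are allowed) and need not be ergodic.
-/

set_option autoImplicit false

open MeasureTheory Set

/-- **Microscopic couplings of jointly invariant measures force Lebesgue measure.** -/
theorem Pool.Agent.Results.MP_e27144_an.NearbyCouplings.result :
    ∀ (p q : ℕ), 2 ≤ p → 2 ≤ q → Irrational (Real.log p / Real.log q) →
    ∀ (a b : ℤ), a ≠ 0 → ∀ (J : ℕ) (K : ℝ) (f : C(UnitAddCircle, ℝ)), (∀ x, 0 ≤ f x) →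
    ∀ ε : ℝ, 0 < ε →
      ∃ η : ℝ, 0 < η ∧ ∃ t₀ : ℝ, 0 < t₀ ∧
        ∀ μ ν : Measure UnitAddCircle, IsProbabilityMeasure μ → IsProbabilityMeasure ν →
          MeasurePreserving (fun x : UnitAddCircle => p • x) μ μ →
          MeasurePreserving (fun x : UnitAddCircle => q • x) μ μ →
          MeasurePreserving (fun x : UnitAddCircle => p • x) ν ν →
          MeasurePreserving (fun x : UnitAddCircle => q • x) ν ν →
          ∀ t : ℝ, 0 < t → t < t₀ → ∀ u : Fin J → ℝ, (∀ i, t ≤ u i ∧ u i ≤ K * t) →
          ∀ ρ : Measure (UnitAddCircle × UnitAddCircle),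
            ρ.map Prod.fst ≤ μ → ρ.map Prod.snd ≤ ν →
            (∀ᵐ z ∂ρ, ∃ i, ∃ v : ℝ, u i ≤ v ∧ v ≤ (1 + η) * u i ∧
              b • z.2 - a • z.1 = (v : UnitAddCircle)) →
            ρ.real univ * (∫ x, f x) - ε ≤ ∫ x, f x ∂μ := by
  intro p q hp hq hirr a b ha J K f hf ε hε
  exact Pool.Agent.V11299.OV.nearJ hp hq hirr ha b J K f hf hε
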