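import Mathlib
import Pool.Agent.H310.MG.I

set_option autoImplicit false

open MeasureTheory

/-- **Measures invariant under multiplication by all primes below `p`.**
Let `p ≥ 3` be prime.
(1) Let `μ` be any probability measure on the circle `R/Z` invariant under `x ↦ q x` for all primes
`q < p` (atoms, zero entropy and non-ergodicity are allowed), and `a = μ^(n)`, `n ≥ 0`. Then
`Re a ≥ -1 / (p - 1)`, with equality if and only if `n x` is a point of order `p` for `μ`-almost
every `x`; `|Im a| ≤ (1 - Re a) tan (π / p)`; and, for `t = max (0, Re a)`, the image of `μ` under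
`x ↦ n x` is at Kantorovich distance at most `10 / p` from `t δ_0 + (1 - t) λ`.
(2) The lower bound `-1 / (p - 1)` and the rate `1 / p` are optimal: there is a probability measure
`ν` invariant under `x ↦ q x` for all primes `q ≠ p` such that `Re ν^(1) = -1 / (p - 1)`, and whose
distance from `t δ_0 + (1 - t) λ` is at least `1 / (4 π p)` for every real `t`. -/
theorem Pool.Agent.Results.MP_e27144_an.PrimesBelow.result :
    ∀ p : ℕ, p.Prime → 3 ≤ p →
      (∀ μ : Measure UnitAddCircle, IsProbabilityMeasure μ →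
        (∀ q : ℕ, q.Prime → q < p → MeasurePreserving (fun x : UnitAddCircle => q • x) μ μ) →
        ∀ n : ℕ,
          -1 / ((p : ℝ) - 1) ≤ (∫ x, (fourier n x : ℂ) ∂μ).re ∧
          ((∫ x, (fourier n x : ℂ) ∂μ).re = -1 / ((p : ℝ) - 1) ↔
            ∀ᵐ x ∂μ, p • (n • x) = 0 ∧ n • x ≠ 0) ∧
          |(∫ x, (fourier n x : ℂ) ∂μ).im| ≤
            (1 - (∫ x, (fourier n x : ℂ) ∂μ).re) * Real.tan (Real.pi / p) ∧
          ∀ (K : NNReal) (f : UnitAddCircle → ℝ), LipschitzWith K f →
            |∫ x, f (n • x) ∂μ - (max 0 (∫ x, (fourier n x : ℂ) ∂μ).re * f 0 +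
              (1 - max 0 (∫ x, (fourier n x : ℂ) ∂μ).re) * ∫ x, f x)| ≤ 10 * K / p) ∧
      ∃ ν : Measure UnitAddCircle, IsProbabilityMeasure ν ∧
        (∀ q : ℕ, q.Prime → q ≠ p → MeasurePreserving (fun x : UnitAddCircle => q • x) ν ν) ∧
        (∫ x, (fourier 1 x : ℂ) ∂ν).re = -1 / ((p : ℝ) - 1) ∧
        ∀ t : ℝ, ∃ f : UnitAddCircle → ℝ, LipschitzWith 1 f ∧
          1 / (4 * Real.pi * p) ≤ |∫ x, f x ∂ν - (t * f 0 + (1 - t) * ∫ x, f x)| := by
  intro p hp hp3
  have : NeZero p := ⟨by omega⟩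
  refine ⟨fun μ hμ hq n => ?_, Pool.Agent.H310.MG.nu p, Pool.Agent.H310.MG.nu_prob p,
    fun q hq hqp => Pool.Agent.H310.MG.nu_inv p q ((Nat.coprime_primes hq hp).2 hqp), ?_⟩
  · have h := Pool.Agent.H310.MG.mp_all hq
    exact ⟨Pool.Agent.H310.MG.re_lower (by omega) h n, Pool.Agent.H310.MG.re_eq_iff (by omega) h n,
      Pool.Agent.H310.MG.im_bound hp3 h n, fun K f hf => Pool.Agent.H310.MG.main hp3 h n hf⟩
  · have hprob := Pool.Agent.H310.MG.nu_prob p
    exact Pool.Agent.H310.MG.lower hp3 (Pool.Agent.H310.MG.mp_all fun q hq hqp =>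
      Pool.Agent.H310.MG.nu_inv p q ((Nat.coprime_primes hq hp).2 (by omega)))
      (Pool.Agent.H310.MG.nu_ae (by omega))
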