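import Mathlib
import Pool.Agent.V11104.UD3
import Pool.Agent.V11104.RF2

/-!
# A uniform dichotomy for the images under `×qⁱ` of the measures invariant under `×p`

Let `p, q ≥ 2` be multiplicatively independent. For every nonempty open set `U` and every `δ > 0`
there is a finite set `F` of points of the circle, permuted by `×p` and `×q`, such that for every
neighbourhood `V` of `F` and every `η > 0` there are `c > 0` and `N` with the following property:
whenever `ν` is a probability measure invariant under `×p` and `W` is an interval of at least `N`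
consecutive integers, for all `i ∈ W` outside a set of at most `δ |W|` exceptions the image `νᵢ` of
`ν` under `×qⁱ` satisfies `νᵢ(U) ≥ c` or `νᵢ(V) ≥ 1 - η`. Neither positive entropy nor
ergodicity is assumed, and `c`, `N` do not depend on `ν`.
-/

set_option autoImplicit false

open MeasureTheory Filter

/-- The uniform dichotomy. -/
theorem Pool.Agent.Results.MP_e27144_an.UniformDichotomy.result :
    ∀ (p q : ℕ), 2 ≤ p → 2 ≤ q → Irrational (Real.log p / Real.log q) →
      ∀ U : Set UnitAddCircle, IsOpen U → U.Nonempty → ∀ δ : ℝ, 0 < δ →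
        ∃ F : Set UnitAddCircle, F.Finite ∧ (∀ x ∈ F, p • x ∈ F ∧ q • x ∈ F) ∧
          (∀ x ∈ F, 0 < addOrderOf x ∧ (addOrderOf x).Coprime (p * q)) ∧
          ∀ V : Set UnitAddCircle, IsOpen V → F ⊆ V → ∀ η : ℝ, 0 < η →
            ∃ c : ℝ, 0 < c ∧ ∃ N : ℕ, ∀ ν : Measure UnitAddCircle, IsProbabilityMeasure ν →
              MeasurePreserving (fun x : UnitAddCircle => p • x) ν ν →
                ∀ s n : ℕ, N ≤ n →
                  ({i : ℕ | i < n ∧ ν.real {x | q ^ (s + i) • x ∈ U} < c ∧
                    ν.real {x | q ^ (s + i) • x ∈ V} < 1 - η}.ncard : ℝ) ≤ δ * n := by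
  classical
  intro p q hp hq hirr U hU hUne δ hδ
  have hind := Pool.Agent.H705R2.mulIndep_of_irrational hp hq hirr
  obtain ⟨F, hF1, hF2, hF3, hF4⟩ := Pool.Agent.V11104.UD.main hp hq hind hU hUne hδ
  refine ⟨F, hF1, hF2, hF3, fun V hV hFV η hη => ?_⟩
  obtain ⟨c, hc, N, hN⟩ := hF4 V hV hFV η hη
  refine ⟨c, hc, N, fun ν hν hpres s n hn => ?_⟩
  let m : Pool.Agent.V11104.UD.PM := (⟨ν, hν⟩ : ProbabilityMeasure UnitAddCircle)
  have hm : Pool.Agent.V11104.UD.push p m = m := by
    apply Pool.Agent.V11104.UD.ms_inj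
    exact hpres.map_eq
  have h1 := hN m hm s n hn
  refine le_trans ?_ h1
  have h2 : {i : ℕ | i < n ∧ ν.real {x | q ^ (s + i) • x ∈ U} < c ∧
      ν.real {x | q ^ (s + i) • x ∈ V} < 1 - η} ⊆
      (((Finset.range n).filter (fun i =>
        Pool.Agent.V11104.UD.ms ((Pool.Agent.V11104.UD.push q)^[s + i] m) U < ENNReal.ofReal c ∧
        ENNReal.ofReal η <
          Pool.Agent.V11104.UD.ms ((Pool.Agent.V11104.UD.push q)^[s + i] m) Vᶜ) : Finset ℕ) :
            Set ℕ) := by
    rintro i ⟨hi, h3, h4⟩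
    simp only [Finset.coe_filter, Finset.mem_range, Set.mem_ofPred_eq]
    refine ⟨hi, ?_, ?_⟩
    · rw [Pool.Agent.V11104.UD.ms_iter_apply _ _ _ hU.measurableSet]
      change ν {x | q ^ (s + i) • x ∈ U} < _
      exact (ENNReal.lt_ofReal_iff_toReal_lt (measure_ne_top _ _)).2 h3
    · rw [Pool.Agent.V11104.UD.ms_iter_apply _ _ _ hV.measurableSet.compl]
      change _ < ν {x | q ^ (s + i) • x ∈ V}ᶜ
      have hVm : MeasurableSet {x : UnitAddCircle | q ^ (s + i) • x ∈ V} :=
        (hV.preimage (continuous_nsmul (q ^ (s + i)))).measurableSet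
      rw [ENNReal.ofReal_lt_iff_lt_toReal hη.le (measure_ne_top _ _)]
      change η < ν.real {x | q ^ (s + i) • x ∈ V}ᶜ
      rw [probReal_compl_eq_one_sub hVm]
      linarith
  have h5 := Set.ncard_le_ncard h2 (Finset.finite_toSet _)
  rw [Set.ncard_coe_finset] at h5
  exact_mod_cast h5
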